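import Pool.Agent.Y522.FA.Stm2

/-! FA-Tr: coordinate changes at interior points. -/

set_option autoImplicit false

open Set Filter Topology Metric Function MeasureTheory Bundle
open scoped Manifold ContDiff Real NNReal

noncomputable section

namespace Pool.Agent.Y987.FA

open Pool.Agent.Y522.FA

section chart

variable {M : Type} [TopologicalSpace M]

theorem co_mem_range (e : OpenPartialHomeomorph M (EuclideanHalfSpace 2)) (y : M) :
    co e y ∈ range (𝓡∂ 2) := mem_range_self (e y)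

theorem pa_co (e : OpenPartialHomeomorph M (EuclideanHalfSpace 2)) {y : M} (hy : y ∈ e.source) :
    pa e (co e y) = y := e.extend_left_inv hy

theorem co_mem_image (e : OpenPartialHomeomorph M (EuclideanHalfSpace 2)) {y : M}
    (hy : y ∈ e.source) : co e y ∈ (𝓡∂ 2) '' e.target := ⟨e y, e.map_source hy, rfl⟩

theorem image_mem_nhdsWithin (e : OpenPartialHomeomorph M (EuclideanHalfSpace 2)) {z : E2}
    (hz : z ∈ (𝓡∂ 2) '' e.target) : (𝓡∂ 2) '' e.target ∈ 𝓝[range (𝓡∂ 2)] z := by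
  obtain ⟨h, hh, rfl⟩ := hz
  exact (𝓡∂ 2).image_mem_nhdsWithin (e.open_target.mem_nhds hh)

variable [ChartedSpace (EuclideanHalfSpace 2) M]

theorem pa_mdiff {e : OpenPartialHomeomorph M (EuclideanHalfSpace 2)}
    (he : e ∈ IsManifold.maximalAtlas (𝓡∂ 2) ∞ M) {z : E2} (hz : z ∈ (𝓡∂ 2) '' e.target) :
    MDifferentiableWithinAt 𝓘(ℝ, E2) (𝓡∂ 2) (pa e) (range (𝓡∂ 2)) z := by
  have h := (contMDiffOn_extend_symm he z hz).mdifferentiableWithinAt (by simp)
  exact h.mono_of_mem_nhdsWithin (image_mem_nhdsWithin e hz)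

theorem tau_diff {e e' : OpenPartialHomeomorph M (EuclideanHalfSpace 2)}
    (he : e ∈ IsManifold.maximalAtlas (𝓡∂ 2) ∞ M) (he' : e' ∈ IsManifold.maximalAtlas (𝓡∂ 2) ∞ M)
    {x : M} (hx : x ∈ e.source) (hx' : x ∈ e'.source) :
    ContDiffWithinAt ℝ ∞ (fun z => co e' (pa e z)) (range (𝓡∂ 2)) (co e x) :=
  ModelWithCorners.contDiffWithinAt_extendCoordChange' he he' hx hx'

theorem chain {e e' : OpenPartialHomeomorph M (EuclideanHalfSpace 2)}
    (he : e ∈ IsManifold.maximalAtlas (𝓡∂ 2) ∞ M) (he' : e' ∈ IsManifold.maximalAtlas (𝓡∂ 2) ∞ M)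
    {x : M} (hx : x ∈ e.source) (hx' : x ∈ e'.source) (v : E2) :
    (tv e (co e x) v : E2) = (tv e' (co e' x)
      (fderivWithin ℝ (fun z => co e' (pa e z)) (range (𝓡∂ 2)) (co e x) v) : E2) := by
  have h1 := tau_diff he he' hx hx'
  have hu : UniqueMDiffWithinAt 𝓘(ℝ, E2) (range (𝓡∂ 2)) (co e x) :=
    ((𝓡∂ 2).uniqueDiffOn _ (co_mem_range e x)).uniqueMDiffWithinAt
  have hev : pa e =ᶠ[𝓝[range (𝓡∂ 2)] (co e x)] pa e' ∘ (fun z => co e' (pa e z)) := by
    have h := ModelWithCorners.extendCoordChange_source_mem_nhdsWithin' (I := 𝓡∂ 2) hx hx'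
    filter_upwards [h] with z hz
    have hz2 : pa e z ∈ e'.source := by
      have h3 : pa e z ∈ (e'.extend (𝓡∂ 2)).source := hz.2
      rwa [e'.extend_source] at h3
    exact (pa_co e' hz2).symm
  have h2 : mfderivWithin 𝓘(ℝ, E2) (𝓡∂ 2) (pa e) (range (𝓡∂ 2)) (co e x) =
      mfderivWithin 𝓘(ℝ, E2) (𝓡∂ 2) (pa e' ∘ (fun z => co e' (pa e z))) (range (𝓡∂ 2))
        (co e x) := by
    refine hev.mfderivWithin_eq ?_
    simp only [Function.comp, pa_co e hx, pa_co e' hx']
  have h3 := mfderivWithin_comp_of_eq (I := 𝓘(ℝ, E2)) (I' := 𝓘(ℝ, E2)) (I'' := 𝓡∂ 2)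
    (x := co e x) (y := co e' x) (g := pa e') (f := fun z => co e' (pa e z))
    (u := range (𝓡∂ 2)) (s := range (𝓡∂ 2)) (pa_mdiff he' (co_mem_image e' hx'))
    (h1.differentiableWithinAt (by simp)).mdifferentiableWithinAt
    (fun z _ => co_mem_range e' _) hu (by simp only [pa_co e hx])
  rw [mfderivWithin_eq_fderivWithin] at h3
  have h4 := h2.trans h3
  exact congrArg (fun l : E2 →L[ℝ] E2 => l v) h4

end chart

theorem stTr : StTr := by
  intro M _ _ _ _ e he e' he' x hx hx' hpos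
  have h1 := tau_diff he he' hx hx'
  have hint : range (𝓡∂ 2) ∈ 𝓝 (co e x) := by
    have h : interior (range (𝓡∂ 2)) = {y : E2 | 0 < y 0} :=
      interior_range_modelWithCornersEuclideanHalfSpace 2
    rw [← mem_interior_iff_mem_nhds, h]
    exact hpos
  have h2 : DifferentiableAt ℝ (fun z => co e' (pa e z)) (co e x) :=
    (h1.contDiffAt hint).differentiableAt (by simp)
  have h3 : fderivWithin ℝ (fun z => co e' (pa e z)) (range (𝓡∂ 2)) (co e x) =
    fderiv ℝ (fun z => co e' (pa e z)) (co e x) := fderivWithin_of_mem_nhds hint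
  refine ⟨fderiv ℝ (fun z => co e' (pa e z)) (co e x), h2.hasFDerivAt, h3, ?_⟩
  set L := fderiv ℝ (fun z => co e' (pa e z)) (co e x) with hL
  have h4 := chain he he' hx hx'
  rw [h3] at h4
  let G : M → E2 → E2 → ℝ := fun y u v => inner ℝ (show TangentSpace (𝓡∂ 2) y from u)
    (show TangentSpace (𝓡∂ 2) y from v)
  have hGa : ∀ y u v w, G y (u + v) w = G y u w + G y v w := fun y u v w =>
    inner_add_left (𝕜 := ℝ) (show TangentSpace (𝓡∂ 2) y from u) (show TangentSpace (𝓡∂ 2) y from v)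
      (show TangentSpace (𝓡∂ 2) y from w)
  have hGb : ∀ y u v w, G y w (u + v) = G y w u + G y w v := fun y u v w =>
    inner_add_right (𝕜 := ℝ) (show TangentSpace (𝓡∂ 2) y from w)
      (show TangentSpace (𝓡∂ 2) y from u) (show TangentSpace (𝓡∂ 2) y from v)
  have hGc : ∀ y (c : ℝ) u v, G y (c • u) v = c * G y u v := fun y c u v =>
    real_inner_smul_left (show TangentSpace (𝓡∂ 2) y from u) (show TangentSpace (𝓡∂ 2) y from v) c
  have hGd : ∀ y (c : ℝ) u v, G y u (c • v) = c * G y u v := fun y c u v =>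
    real_inner_smul_right (show TangentSpace (𝓡∂ 2) y from u)
      (show TangentSpace (𝓡∂ 2) y from v) c
  have hGs : ∀ y u v, G y u v = G y v u := fun y u v =>
    real_inner_comm (show TangentSpace (𝓡∂ 2) y from v) (show TangentSpace (𝓡∂ 2) y from u)
  have hg : ∀ (e : OpenPartialHomeomorph M (EuclideanHalfSpace 2)) (y : M) (_ : y ∈ e.source)
      (i j : Fin 2), gram e (co e y) i j =
        G y (tv e (co e y) (bv i) : E2) (tv e (co e y) (bv j) : E2) := by
    intro e y hy i j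
    have h : gram e (co e y) i j = G (pa e (co e y)) (tv e (co e y) (bv i) : E2)
      (tv e (co e y) (bv j) : E2) := rfl
    rw [h, pa_co e hy]
  have hexp : ∀ v : E2, v = v 0 • bv 0 + v 1 • bv 1 := by
    intro v
    ext i
    fin_cases i <;> simp [bv]
  let t' : E2 → E2 := fun v => (tv e' (co e' x) v : E2)
  have ht' : ∀ v : E2, t' v = v 0 • t' (bv 0) + v 1 • t' (bv 1) := by
    intro v
    have h : ∀ l : E2 →L[ℝ] E2, l v = v 0 • l (bv 0) + v 1 • l (bv 1) := by
      intro l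
      conv_lhs => rw [hexp v]
      rw [map_add, map_smul, map_smul]
    exact h (mfderivWithin 𝓘(ℝ, E2) (𝓡∂ 2) (pa e') (range (𝓡∂ 2)) (co e' x))
  have hdet : L.det = (L (bv 0)) 0 * (L (bv 1)) 1 - (L (bv 1)) 0 * (L (bv 0)) 1 := by
    rw [ContinuousLinearMap.det, ← LinearMap.det_toMatrix (EuclideanSpace.basisFun (Fin 2) ℝ).toBasis,
      Matrix.det_fin_two]
    simp [LinearMap.toMatrix_apply, bv]
  have hgr : ∀ i j, gram e (co e x) i j = G x (t' (L (bv i))) (t' (L (bv j))) := by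
    intro i j
    rw [hg e x hx, h4, h4]
  have hgr' : ∀ i j, gram e' (co e' x) i j = G x (t' (bv i)) (t' (bv j)) := fun i j =>
    hg e' x hx' i j
  rw [Matrix.det_fin_two, Matrix.det_fin_two, hgr, hgr, hgr, hgr, hgr', hgr', hgr', hgr', hdet,
    ht' (L (bv 0)), ht' (L (bv 1))]
  simp only [hGa, hGb, hGc, hGd]
  rw [hGs x (t' (bv 1)) (t' (bv 0))]
  ring

end Pool.Agent.Y987.FA
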